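import Mathlib

/-!
# MP_816335_an: weak interpolation sets of order 2 for totally transitive systems are never syndetic
-/

set_option autoImplicit false

open Filter Topology

namespace Pool.Agent.Results.MP_816335_an.NeverSyndetic

universe u

/-- Topological transitivity: for all nonempty open `U, V` there is `n ≥ 1` with
`U ∩ T^{-n} V ≠ ∅`. -/
def TopTransitive {X : Type u} [TopologicalSpace X] (T : X → X) : Prop :=
  ∀ U V : Set X, IsOpen U → IsOpen V → U.Nonempty → V.Nonempty →
    ∃ n : ℕ, 1 ≤ n ∧ (U ∩ T^[n] ⁻¹' V).Nonempty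

/-- Total transitivity: all powers `T^m`, `m ≥ 1`, are topologically transitive. -/
def TotallyTransitive {X : Type u} [TopologicalSpace X] (T : X → X) : Prop :=
  ∀ m : ℕ, 1 ≤ m → TopTransitive (T^[m])

/-- `S` has bounded gaps: there is `L` such that each interval `{n, …, n + L}` of positive integers
meets `S`. -/
def Syndetic (S : Set ℕ) : Prop :=
  ∃ L : ℕ, ∀ n : ℕ, 1 ≤ n → ∃ s ∈ S, n ≤ s ∧ s ≤ n + L

/-- `S` is a weak interpolation set of order `k` for totally transitive systems: for every function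
`f` on `S` with values in `{0, …, k-1}` there are a compact metric space `X`, a continuous totally
transitive map `T` of `X`, a transitive point `x` and a continuous `F : X → ℂ` with
`F (T^n x) = f n` for all `n ∈ S`. -/
def WeakInterpolationSet (k : ℕ) (S : Set ℕ) : Prop :=
  ∀ f : ℕ → ℕ, (∀ n ∈ S, f n < k) →
    ∃ (X : Type u) (_ : MetricSpace X) (_ : CompactSpace X) (T : X → X) (x : X) (F : X → ℂ),
      Continuous T ∧ TotallyTransitive T ∧ Dense (Set.range fun n : ℕ => T^[n] x) ∧
      Continuous F ∧ ∀ n ∈ S, F (T^[n] x) = (f n : ℂ)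

/-- In a totally transitive system a transitive point visits every nonempty open set along every
residue class. -/
lemma residue {X : Type u} [MetricSpace X] [CompactSpace X] {T : X → X} (hT : Continuous T)
    (htt : TotallyTransitive T) {x : X} (hx : Dense (Set.range fun n : ℕ => T^[n] x))
    {m : ℕ} (hm : 1 ≤ m) (r : ℕ) {V : Set X} (hV : IsOpen V) (hVn : V.Nonempty) :
    ∃ k : ℕ, 1 ≤ k ∧ T^[m * k + r] x ∈ V := by
  have : Nonempty X := ⟨x⟩
  -- one residue class is somewhere dense
  have hcov : (⋃ j : Fin m, closure (Set.range fun k : ℕ => T^[m * k + j] x)) = Set.univ := by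
    have hcl : IsClosed (⋃ j : Fin m, closure (Set.range fun k : ℕ => T^[m * k + j] x)) :=
      isClosed_iUnion_of_finite fun j => isClosed_closure
    have hsub : (Set.range fun n : ℕ => T^[n] x) ⊆
        ⋃ j : Fin m, closure (Set.range fun k : ℕ => T^[m * k + j] x) := by
      rintro _ ⟨n, rfl⟩
      refine Set.mem_iUnion.2 ⟨⟨n % m, Nat.mod_lt _ (by omega)⟩, subset_closure ⟨n / m, ?_⟩⟩
      show T^[m * (n / m) + n % m] x = T^[n] x
      rw [Nat.div_add_mod]
    have := hcl.closure_subset_iff.2 hsub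
    rw [hx.closure_eq] at this
    exact Set.univ_subset_iff.1 this
  obtain ⟨j, hj⟩ := nonempty_interior_of_iUnion_of_closed
    (fun j : Fin m => (isClosed_closure : IsClosed
      (closure (Set.range fun k : ℕ => T^[m * k + (j : ℕ)] x)))) hcov
  -- hence dense
  have hdense : ∀ W : Set X, IsOpen W → W.Nonempty → ∃ k : ℕ, 1 ≤ k ∧ T^[m * k + j] x ∈ W := by
    intro W hW hWn
    obtain ⟨n, hn, u, hu, huW⟩ := htt m hm _ W isOpen_interior hW hj hWn
    have huW' : T^[m * n] u ∈ W := by
      rw [Function.iterate_mul]; exact huW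
    have hopen : IsOpen ((T^[m * n]) ⁻¹' W) := hW.preimage (hT.iterate _)
    obtain ⟨y, hy, k, rfl⟩ := mem_closure_iff.1 (interior_subset hu) _ hopen huW'
    refine ⟨k + n, by omega, ?_⟩
    have : T^[m * (k + n) + j] x = T^[m * n] (T^[m * k + j] x) := by
      rw [← Function.iterate_add_apply]; congr 1; ring
    rw [this]
    exact hy
  -- pass to the residue class of r
  have hjm : (j : ℕ) < m * (j + 1) := by
    have := j.2
    nlinarith [Nat.zero_le (j : ℕ)]
  set t : ℕ := r + m * (j + 1) - j with ht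
  have ht1 : 1 ≤ t := by omega
  have hjt : (j : ℕ) + t = r + m * (j + 1) := by omega
  have hne : ((T^[t]) ⁻¹' V).Nonempty := by
    obtain ⟨n, hn, y, -, hy⟩ := htt t ht1 Set.univ V isOpen_univ hV Set.univ_nonempty hVn
    obtain ⟨n', rfl⟩ : ∃ n', n = n' + 1 := ⟨n - 1, by omega⟩
    refine ⟨(T^[t])^[n'] y, ?_⟩
    rw [Set.mem_preimage, ← Function.iterate_succ_apply' (T^[t]) n' y]
    exact hy
  obtain ⟨k, hk, hkV⟩ := hdense _ (hV.preimage (hT.iterate t)) hne
  refine ⟨k + (j + 1), by omega, ?_⟩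
  have : T^[m * (k + (j + 1)) + r] x = T^[t] (T^[m * k + j] x) := by
    rw [← Function.iterate_add_apply]; congr 1
    have : t + (m * k + j) = m * k + (j + t) := by ring
    rw [this, hjt]; ring
  rw [this]
  exact hkV

/-- The colouring of the positive integers by all words of length `W`, one after the other. -/
noncomputable def col (W : ℕ) (n : ℕ) : ℕ :=
  if h : 0 < W then
    if (Fintype.equivFin (Fin W → Bool)).symm
        ⟨(n / W) % Fintype.card (Fin W → Bool), Nat.mod_lt _ Fintype.card_pos⟩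
        ⟨n % W, Nat.mod_lt _ h⟩ then 1 else 0
  else 0

lemma col_lt (W n : ℕ) : col W n < 2 := by
  unfold col
  split_ifs <;> norm_num

lemma col_eq {W : ℕ} (h : 0 < W) (v : Fin W → Bool) (k : ℕ) (j : Fin W) :
    col W (W * Fintype.card (Fin W → Bool) * k
      + W * (Fintype.equivFin (Fin W → Bool) v : ℕ) + j) = if v j then 1 else 0 := by
  set c := Fintype.card (Fin W → Bool) with hc
  set r : ℕ := (Fintype.equivFin (Fin W → Bool) v : ℕ) with hr
  have hrc : r < c := (Fintype.equivFin (Fin W → Bool) v).2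
  have e0 : W * c * k + W * r + j = j + W * (c * k + r) := by ring
  have e1 : (W * c * k + W * r + j) / W = c * k + r := by
    rw [e0, Nat.add_mul_div_left _ _ h, Nat.div_eq_of_lt j.2, zero_add]
  have e2 : (W * c * k + W * r + j) % W = j := by
    rw [e0, Nat.add_mul_mod_self_left, Nat.mod_eq_of_lt j.2]
  have e3 : (c * k + r) % c = r := by
    rw [add_comm, Nat.add_mul_mod_self_left, Nat.mod_eq_of_lt hrc]
  unfold col
  rw [dif_pos h]
  have f1 : (⟨((W * c * k + W * r + j) / W) % Fintype.card (Fin W → Bool),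
      Nat.mod_lt _ Fintype.card_pos⟩ : Fin (Fintype.card (Fin W → Bool)))
      = Fintype.equivFin (Fin W → Bool) v := by
    apply Fin.ext
    show ((W * c * k + W * r + j) / W) % c = r
    rw [e1, e3]
  have f2 : (⟨(W * c * k + W * r + j) % W, Nat.mod_lt _ h⟩ : Fin W) = j := Fin.ext e2
  rw [f1, f2, Equiv.symm_apply_apply]

/-- **No syndetic set is a weak interpolation set of order 2 (or of any order `k ≥ 2`) for the
class of totally transitive systems.** -/
theorem result (k : ℕ) (hk : 2 ≤ k) (S : Set ℕ) (h : WeakInterpolationSet.{u} k S) :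
    ¬ Syndetic S := by
  rintro ⟨L, hL⟩
  obtain ⟨X, _, _, T, x, F, hT, htt, hx, hF, hval⟩ := h (col (L + 1))
    (fun n _ => (col_lt _ _).trans_le hk)
  have hW : 0 < L + 1 := Nat.succ_pos _
  set c := Fintype.card (Fin (L + 1) → Bool) with hc
  have hc0 : 0 < c := Fintype.card_pos
  classical
  set v : Fin (L + 1) → Bool := fun j => decide ((1 : ℝ) / 2 ≤ ‖F (T^[(j : ℕ)] x) - 1‖) with hv
  set V : Set X := {y | ∀ j : Fin (L + 1), ‖F (T^[(j : ℕ)] y) - F (T^[(j : ℕ)] x)‖ < 1 / 2} with hVd
  have hVo : IsOpen V := by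
    rw [hVd, Set.ofPred_forall]
    refine isOpen_iInter_of_finite fun j => ?_
    exact isOpen_lt ((hF.comp (hT.iterate _)).sub continuous_const).norm continuous_const
  have hVx : x ∈ V := fun j => by
    rw [sub_self, norm_zero]; norm_num
  obtain ⟨q, hq, hqV⟩ := residue hT htt hx (m := (L + 1) * c) (Nat.mul_pos hW hc0)
    ((L + 1) * (Fintype.equivFin (Fin (L + 1) → Bool) v : ℕ)) hVo ⟨x, hVx⟩
  set n : ℕ := (L + 1) * c * q + (L + 1) * (Fintype.equivFin (Fin (L + 1) → Bool) v : ℕ) with hn
  have hn1 : 1 ≤ n := by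
    have : 1 ≤ (L + 1) * c * q := Nat.mul_pos (Nat.mul_pos hW hc0) hq
    omega
  obtain ⟨s, hsS, hs1, hs2⟩ := hL n hn1
  obtain ⟨j, rfl⟩ : ∃ j : Fin (L + 1), s = n + j := ⟨⟨s - n, by omega⟩, by simp; omega⟩
  have h1 := hval _ hsS
  rw [hn, col_eq hW, ← hn] at h1
  have h2 := hqV j
  rw [← Function.iterate_add_apply, add_comm (j : ℕ) n, h1] at h2
  by_cases hj : (1 : ℝ) / 2 ≤ ‖F (T^[(j : ℕ)] x) - 1‖
  · have : v j = true := by rw [hv]; simpa using hj
    rw [this] at h2
    simp only [if_true, Nat.cast_one] at h2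
    rw [norm_sub_rev] at h2
    linarith
  · have : v j = false := by rw [hv]; simpa using hj
    rw [this] at h2
    simp only [Bool.false_eq_true, if_false, Nat.cast_zero, zero_sub, norm_neg] at h2
    have h3 : ‖(1 : ℂ)‖ ≤ ‖F (T^[(j : ℕ)] x) - 1‖ + ‖F (T^[(j : ℕ)] x)‖ := by
      calc ‖(1 : ℂ)‖ = ‖(F (T^[(j : ℕ)] x)) - (F (T^[(j : ℕ)] x) - 1)‖ := by congr 1; ring
        _ ≤ ‖F (T^[(j : ℕ)] x)‖ + ‖F (T^[(j : ℕ)] x) - 1‖ := norm_sub_le _ _
        _ = _ := add_comm _ _
    rw [norm_one] at h3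
    push Not at hj
    linarith

end Pool.Agent.Results.MP_816335_an.NeverSyndetic
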